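import Pool.Agent.R443.Nu2c

/-!
# Partitions with exactly three part sizes: parity
-/

set_option autoImplicit false

namespace Pool.Agent.H42NU

open Finset Pool.Agent.R443.Nu2

abbrev T3 := (ℕ × ℕ) × (ℕ × ℕ) × (ℕ × ℕ)

/-- `a x + b y + c z = n` with `a > b > c ≥ 1` and `x, y, z ≥ 1` -/
def F3 (n : ℕ) : Finset T3 :=
  ((Icc 1 n ×ˢ Icc 1 n) ×ˢ (Icc 1 n ×ˢ Icc 1 n) ×ˢ (Icc 1 n ×ˢ Icc 1 n)).filter
    (fun t => t.1.1 * t.1.2 + t.2.1.1 * t.2.1.2 + t.2.2.1 * t.2.2.2 = n ∧
      t.2.1.1 < t.1.1 ∧ t.2.2.1 < t.2.1.1)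

theorem mem_F3 {n a x b y c z : ℕ} : (((a, x), (b, y), (c, z)) : T3) ∈ F3 n ↔
    1 ≤ c ∧ 1 ≤ x ∧ 1 ≤ y ∧ 1 ≤ z ∧ b < a ∧ c < b ∧ a * x + b * y + c * z = n := by
  unfold F3
  simp only [mem_filter, mem_product, mem_Icc]
  constructor
  · rintro ⟨⟨⟨⟨h1, _⟩, h3, _⟩, ⟨⟨h5, _⟩, h7, _⟩, ⟨h9, _⟩, h11, _⟩, h, hb, hc⟩
    exact ⟨h9, h3, h7, h11, hb, hc, h⟩
  · rintro ⟨h1, h2, h3, h4, h5, h6, h⟩
    have e1 : a ≤ a * x := Nat.le_mul_of_pos_right _ h2
    have e2 : x ≤ a * x := Nat.le_mul_of_pos_left _ (by omega)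
    have e3 : b ≤ b * y := Nat.le_mul_of_pos_right _ h3
    have e4 : y ≤ b * y := Nat.le_mul_of_pos_left _ (by omega)
    have e5 : c ≤ c * z := Nat.le_mul_of_pos_right _ h4
    have e6 : z ≤ c * z := Nat.le_mul_of_pos_left _ (by omega)
    refine ⟨⟨⟨⟨by omega, by omega⟩, h2, by omega⟩, ⟨⟨by omega, by omega⟩, h3, by omega⟩,
      ⟨h1, by omega⟩, h4, by omega⟩, h, h5, h6⟩

def mkP3 {n : ℕ} (a x b y c z : ℕ) (h : 1 ≤ c ∧ 1 ≤ x ∧ 1 ≤ y ∧ 1 ≤ z ∧ b < a ∧ c < b ∧
    a * x + b * y + c * z = n) : n.Partition where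
  parts := Multiset.replicate x a + Multiset.replicate y b + Multiset.replicate z c
  parts_pos := by
    intro i hi
    simp only [Multiset.mem_add, Multiset.mem_replicate] at hi
    omega
  parts_sum := by
    simp only [Multiset.sum_add, Multiset.sum_replicate, smul_eq_mul]
    rw [← h.2.2.2.2.2.2]; ring

theorem nu_three (n : ℕ) : nu 3 n = (F3 n).card := by
  classical
  symm
  unfold nu
  have hF : ∀ q ∈ F3 n, 1 ≤ q.2.2.1 ∧ 1 ≤ q.1.2 ∧ 1 ≤ q.2.1.2 ∧ 1 ≤ q.2.2.2 ∧
      q.2.1.1 < q.1.1 ∧ q.2.2.1 < q.2.1.1 ∧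
      q.1.1 * q.1.2 + q.2.1.1 * q.2.1.2 + q.2.2.1 * q.2.2.2 = n := by
    rintro ⟨⟨a, x⟩, ⟨b, y⟩, ⟨c, z⟩⟩ h
    rw [mem_F3] at h
    exact h
  apply Finset.card_bij (fun (q : T3) hq =>
    mkP3 q.1.1 q.1.2 q.2.1.1 q.2.1.2 q.2.2.1 q.2.2.2 (hF q hq))
  · rintro ⟨⟨a, x⟩, ⟨b, y⟩, ⟨c, z⟩⟩ hq
    have h := hF _ hq
    simp only at h
    rw [mem_filter]
    refine ⟨mem_univ _, ?_⟩
    simp only [mkP3, Multiset.toFinset_add, Multiset.toFinset_replicate]
    rw [if_neg (by omega), if_neg (by omega), if_neg (by omega), Finset.card_eq_three]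
    refine ⟨a, b, c, by omega, by omega, by omega, ?_⟩
    ext t
    simp only [mem_union, mem_singleton, mem_insert]
    tauto
  · rintro ⟨⟨a, x⟩, ⟨b, y⟩, ⟨c, z⟩⟩ hq ⟨⟨a', x'⟩, ⟨b', y'⟩, ⟨c', z'⟩⟩ hq' h
    have h1 := hF _ hq
    have h1' := hF _ hq'
    simp only at h1 h1'
    have hp : Multiset.replicate x a + Multiset.replicate y b + Multiset.replicate z c =
        Multiset.replicate x' a' + Multiset.replicate y' b' + Multiset.replicate z' c' :=
      congrArg (fun p : n.Partition => p.parts) h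
    have cnt : ∀ t, (if a = t then x else 0) + (if b = t then y else 0) + (if c = t then z else 0) =
        (if a' = t then x' else 0) + (if b' = t then y' else 0) + (if c' = t then z' else 0) := by
      intro t
      have := congrArg (Multiset.count t) hp
      simpa only [Multiset.count_add, Multiset.count_replicate] using this
    -- largest, smallest
    have haa : a = a' := by
      have c1 := cnt a
      have c2 := cnt a'
      rw [if_pos rfl] at c1
      rw [if_pos (rfl : a' = a')] at c2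
      split_ifs at c1 c2 <;> omega
    subst haa
    have hx : x = x' := by
      have c1 := cnt a
      rw [if_pos rfl, if_pos rfl, if_neg (show ¬ b = a by omega), if_neg (show ¬ c = a by omega),
        if_neg (show ¬ b' = a by omega), if_neg (show ¬ c' = a by omega)] at c1
      omega
    subst hx
    have hbb : b = b' := by
      have c1 := cnt b
      have c2 := cnt b'
      rw [if_neg (show ¬ a = b by omega), if_pos rfl] at c1
      rw [if_neg (show ¬ a = b' by omega), if_pos (rfl : b' = b')] at c2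
      split_ifs at c1 c2 <;> omega
    subst hbb
    have hy : y = y' := by
      have c1 := cnt b
      rw [if_neg (show ¬ a = b by omega), if_pos rfl, if_neg (show ¬ c = b by omega),
        if_pos rfl, if_neg (show ¬ c' = b by omega)] at c1
      omega
    subst hy
    have hcc : c = c' := by
      have c1 := cnt c
      rw [if_neg (show ¬ a = c by omega), if_neg (show ¬ b = c by omega), if_pos rfl] at c1
      by_contra hne
      rw [if_neg (show ¬ c' = c by omega)] at c1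
      omega
    subst hcc
    have hz : z = z' := by
      have c1 := cnt c
      rw [if_neg (show ¬ a = c by omega), if_neg (show ¬ b = c by omega), if_pos rfl,
        if_pos rfl] at c1
      omega
    subst hz
    rfl
  · intro p hp
    rw [mem_filter, card_eq_three] at hp
    obtain ⟨x, y, z, hxy, hxz, hyz, hset⟩ := hp.2
    have main : ∀ x y z : ℕ, y < x → z < y → p.parts.toFinset = {x, y, z} →
        ∃ (q : T3) (hq : q ∈ F3 n),
          mkP3 q.1.1 q.1.2 q.2.1.1 q.2.1.2 q.2.2.1 q.2.2.2 (hF q hq) = p := by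
      intro x y z hlt hlt2 hset
      have hx : x ∈ p.parts := by rw [← Multiset.mem_toFinset, hset]; simp
      have hy : y ∈ p.parts := by rw [← Multiset.mem_toFinset, hset]; simp
      have hz : z ∈ p.parts := by rw [← Multiset.mem_toFinset, hset]; simp
      have hsub : p.parts = Multiset.replicate (p.parts.count x) x +
          Multiset.replicate (p.parts.count y) y + Multiset.replicate (p.parts.count z) z := by
        ext a
        rw [Multiset.count_add, Multiset.count_add, Multiset.count_replicate,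
          Multiset.count_replicate, Multiset.count_replicate]
        by_cases ha : a ∈ p.parts
        · rw [← Multiset.mem_toFinset, hset, mem_insert, mem_insert, mem_singleton] at ha
          rcases ha with rfl | rfl | rfl
          · rw [if_pos rfl, if_neg (by omega), if_neg (by omega), add_zero, add_zero]
          · rw [if_pos rfl, if_neg (by omega), if_neg (by omega), zero_add, add_zero]
          · rw [if_pos rfl, if_neg (by omega), if_neg (by omega), zero_add, zero_add]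
        · have h0 := Multiset.count_eq_zero_of_notMem ha
          rw [h0, if_neg (fun h : x = a => ha (h ▸ hx)), if_neg (fun h : y = a => ha (h ▸ hy)),
            if_neg (fun h : z = a => ha (h ▸ hz))]
      have hsum : x * p.parts.count x + y * p.parts.count y + z * p.parts.count z = n := by
        have h3 := p.parts_sum
        have h4 := congrArg Multiset.sum hsub
        simp only [Multiset.sum_add, Multiset.sum_replicate, smul_eq_mul] at h4
        rw [mul_comm x, mul_comm y, mul_comm z]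
        omega
      refine ⟨((x, p.parts.count x), (y, p.parts.count y), (z, p.parts.count z)), ?_, ?_⟩
      · rw [mem_F3]
        exact ⟨p.parts_pos hz, Multiset.one_le_count_iff_mem.mpr hx,
          Multiset.one_le_count_iff_mem.mpr hy, Multiset.one_le_count_iff_mem.mpr hz,
          hlt, hlt2, hsum⟩
      · apply Nat.Partition.ext
        simp only [mkP3]
        exact hsub.symm
    have perm : ∀ a b c : ℕ, ({a, b, c} : Finset ℕ) = {x, y, z} → b < a → c < b →
        ∃ (q : T3) (hq : q ∈ F3 n),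
          mkP3 q.1.1 q.1.2 q.2.1.1 q.2.1.2 q.2.2.1 q.2.2.2 (hF q hq) = p := by
      intro a b c h1 h2 h3
      exact main a b c h2 h3 (by rw [h1, hset])
    rcases lt_or_gt_of_ne hxy with h | h <;> rcases lt_or_gt_of_ne hxz with h' | h' <;>
      rcases lt_or_gt_of_ne hyz with h'' | h''
    · exact perm z y x (by ext t; simp only [mem_insert, mem_singleton]; tauto) h'' h
    · exact perm y z x (by ext t; simp only [mem_insert, mem_singleton]; tauto) h'' h'
    · omega
    · exact perm y x z (by ext t; simp only [mem_insert, mem_singleton]; tauto) h h'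
    · exact perm z x y (by ext t; simp only [mem_insert, mem_singleton]; tauto) h' h
    · omega
    · exact perm x z y (by ext t; simp only [mem_insert, mem_singleton]; tauto) h' h''
    · exact perm x y z rfl h h''

/-- conjugation -/
def conj (t : T3) : T3 :=
  ((t.1.2 + t.2.1.2 + t.2.2.2, t.2.2.1), (t.1.2 + t.2.1.2, t.2.1.1 - t.2.2.1),
    (t.1.2, t.1.1 - t.2.1.1))

/-- `(x + y)² + 2 x z = n` -/
def B (n : ℕ) : Finset (ℕ × ℕ × ℕ) :=
  (Icc 1 n ×ˢ Icc 1 n ×ˢ Icc 1 n).filter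
    (fun t => (t.1 + t.2.1) * (t.1 + t.2.1) + 2 * t.1 * t.2.2 = n)

theorem mem_B {n x y z : ℕ} : (x, y, z) ∈ B n ↔
    1 ≤ x ∧ 1 ≤ y ∧ 1 ≤ z ∧ (x + y) * (x + y) + 2 * x * z = n := by
  unfold B
  simp only [mem_filter, mem_product, mem_Icc]
  constructor
  · rintro ⟨⟨⟨h1, _⟩, ⟨h2, _⟩, ⟨h3, _⟩⟩, h⟩
    exact ⟨h1, h2, h3, h⟩
  · rintro ⟨h1, h2, h3, h⟩
    refine ⟨⟨⟨h1, ?_⟩, ⟨h2, ?_⟩, ⟨h3, ?_⟩⟩, h⟩ <;> nlinarith

theorem nu_three_parity (n : ℕ) : ((nu 3 n : ℕ) : ZMod 2) = (((B n).card : ℕ) : ZMod 2) := by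
  classical
  rw [nu_three, parity_invol (F3 n) conj]
  · refine congrArg (fun n : ℕ => (n : ZMod 2)) ?_
    apply card_nbij (fun t => (t.1.2, t.2.1.2, t.2.2.2))
    · rintro ⟨⟨a, x⟩, ⟨b, y⟩, ⟨c, z⟩⟩ ht
      rw [mem_coe, mem_filter] at ht
      obtain ⟨h1, h0⟩ := ht
      simp only [conj, Prod.mk.injEq] at h0
      obtain ⟨⟨h2, h3⟩, ⟨h4, h5⟩, h6, h7⟩ := h0
      rw [mem_F3] at h1
      rw [mem_coe, mem_B]
      obtain ⟨g1, g2, g3, g4, g5, g6, g7⟩ := h1
      refine ⟨g2, g3, g4, ?_⟩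
      subst h2 h4 h6
      rw [← g7]; ring
    · rintro ⟨⟨a, x⟩, ⟨b, y⟩, ⟨c, z⟩⟩ ht ⟨⟨a', x'⟩, ⟨b', y'⟩, ⟨c', z'⟩⟩ ht' h
      rw [mem_coe, mem_filter] at ht ht'
      obtain ⟨-, h0⟩ := ht
      obtain ⟨-, h0'⟩ := ht'
      simp only [conj, Prod.mk.injEq] at h0 h0' h ⊢
      obtain ⟨⟨p1, p2⟩, ⟨p3, p4⟩, p5, p6⟩ := h0
      obtain ⟨⟨q1, q2⟩, ⟨q3, q4⟩, q5, q6⟩ := h0'
      obtain ⟨h1, h2, h3⟩ := h
      refine ⟨⟨?_, ?_⟩, ⟨?_, ?_⟩, ?_, ?_⟩ <;> omega
    · rintro ⟨x, y, z⟩ ht
      rw [mem_coe, mem_B] at ht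
      refine ⟨((x + y + z, x), (x + y, y), (x, z)), ?_, rfl⟩
      rw [mem_coe, mem_filter, mem_F3]
      simp only [conj, Prod.mk.injEq]
      refine ⟨⟨ht.1, ht.1, ht.2.1, ht.2.2.1, by omega, by omega, ?_⟩, ?_⟩
      swap
      · have e3 : x + y - x = y := by omega
        have e4 : x + y + z - (x + y) = z := by omega
        rw [e3, e4]
        simp
      rw [← ht.2.2.2]; ring
  · rintro ⟨⟨a, x⟩, ⟨b, y⟩, ⟨c, z⟩⟩ ht
    rw [mem_F3] at ht
    obtain ⟨g1, g2, g3, g4, g5, g6, g7⟩ := ht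
    simp only [conj]
    rw [mem_F3]
    refine ⟨g2, g1, by omega, by omega, by omega, by omega, ?_⟩
    obtain ⟨v, rfl⟩ : ∃ v, b = c + v := ⟨b - c, by omega⟩
    obtain ⟨w, rfl⟩ : ∃ w, a = c + v + w := ⟨a - (c + v), by omega⟩
    rw [Nat.add_sub_cancel_left, Nat.add_sub_cancel_left, ← g7]
    ring
  · rintro ⟨⟨a, x⟩, ⟨b, y⟩, ⟨c, z⟩⟩ ht
    rw [mem_F3] at ht
    obtain ⟨g1, g2, g3, g4, g5, g6, g7⟩ := ht
    clear g7
    obtain ⟨v, rfl⟩ : ∃ v, b = c + v := ⟨b - c, by omega⟩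
    obtain ⟨w, rfl⟩ : ∃ w, a = c + v + w := ⟨a - (c + v), by omega⟩
    simp only [conj]
    have e1 : c + (c + v - c) + (c + v + w - (c + v)) = c + v + w := by omega
    have e2 : c + (c + v - c) = c + v := by omega
    have e3 : x + y - x = y := by omega
    have e4 : x + y + z - (x + y) = z := by omega
    rw [e1, e2, e3, e4]

end Pool.Agent.H42NU
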