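import Pool.Agent.H42NU.Nu3

/-!
# Parity of `ν₃ (n)` for `n ≡ 2 (mod 4)`, `3 ∥ n`
-/

set_option autoImplicit false

namespace Pool.Agent.H42NU

open Finset Pool.Agent.R443.Nu2

/-- `y² + A C = n`, `y` odd, `A < C` -/
def Dn (n : ℕ) : Finset (ℕ × ℕ × ℕ) :=
  (Icc 1 n ×ˢ Icc 1 n ×ˢ Icc 1 n).filter
    (fun t => t.1 * t.1 + t.2.1 * t.2.2 = n ∧ t.1 % 2 = 1 ∧ t.2.1 < t.2.2)

theorem mem_Dn {n y A C : ℕ} : (y, A, C) ∈ Dn n ↔
    1 ≤ A ∧ y * y + A * C = n ∧ y % 2 = 1 ∧ A < C := by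
  unfold Dn
  simp only [mem_filter, mem_product, mem_Icc]
  constructor
  · rintro ⟨⟨⟨_, _⟩, ⟨h2, _⟩, ⟨_, _⟩⟩, h, h', h''⟩
    exact ⟨h2, h, h', h''⟩
  · rintro ⟨h1, h, h', h''⟩
    have hy : 1 ≤ y := by omega
    refine ⟨⟨⟨hy, ?_⟩, ⟨h1, ?_⟩, ⟨by omega, ?_⟩⟩, h, h', h''⟩ <;> nlinarith

theorem mod4_mul_self (y : ℕ) : (y * y) % 4 = if y % 2 = 1 then 1 else 0 := by
  obtain ⟨q, r, hr, hy⟩ : ∃ q r, r < 2 ∧ y = 2 * q + r := ⟨y / 2, y % 2, by omega, by omega⟩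
  interval_cases r
  · have : y * y = 4 * (q * q) := by rw [hy]; ring
    rw [this, if_neg (by omega)]; omega
  · have : y * y = 4 * (q * q + q) + 1 := by rw [hy]; ring
    rw [this, if_pos (by omega)]; omega

theorem odd_mod4 {y : ℕ} (hy : y % 2 = 1) : (y * y) % 4 = 1 := by
  rw [mod4_mul_self, if_pos hy]

/-- for `n ≡ 2 (mod 4)`, `y` odd, `y² + A C = n`: `A` is odd and `C - A` divisible by `4` -/
theorem AC {n y A C : ℕ} (hn : n % 4 = 2) (hy : y % 2 = 1) (h : y * y + A * C = n) :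
    A % 2 = 1 ∧ C % 4 = A % 4 := by
  have h1 := odd_mod4 hy
  have h2 : (A * C) % 4 = 1 := by omega
  have h3 : A % 4 < 4 := Nat.mod_lt _ (by norm_num)
  have h4 : C % 4 < 4 := Nat.mod_lt _ (by norm_num)
  rw [Nat.mul_mod] at h2
  generalize ha : A % 4 = a at *
  generalize hc : C % 4 = c at *
  interval_cases a <;> interval_cases c <;> simp at h2 ⊢ <;> omega

/-- the part of `Dn` with `A + 2 y < C` is `B n` -/
theorem B_card {n : ℕ} (hn : n % 4 = 2) :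
    (B n).card = ((Dn n).filter (fun t => t.2.1 + 2 * t.1 < t.2.2)).card := by
  apply card_nbij (fun t => (t.2.1, t.1, t.1 + 2 * t.2.1 + 2 * t.2.2))
  · rintro ⟨x, y, z⟩ ht
    rw [mem_coe, mem_B] at ht
    obtain ⟨h1, h2, h3, h⟩ := ht
    rw [mem_coe, mem_filter, mem_Dn]
    have e : y * y + x * (x + 2 * y + 2 * z) = n := by rw [← h]; ring
    refine ⟨⟨h1, e, ?_, by simp only; omega⟩, by simp only; omega⟩
    by_contra hy
    have h4 := mod4_mul_self y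
    rw [if_neg hy] at h4
    have h5 : (x * (x + 2 * y + 2 * z)) % 4 = 2 := by omega
    rcases Nat.even_or_odd x with hx | hx
    · obtain ⟨w, rfl⟩ := hx
      have : (w + w) * (w + w + 2 * y + 2 * z) = 4 * (w * (w + y + z)) := by ring
      omega
    · obtain ⟨w, rfl⟩ := hx
      have : (2 * w + 1) * (2 * w + 1 + 2 * y + 2 * z)
        = 2 * (w * (2 * w + 1 + 2 * y + 2 * z) + w + y + z) + 1 := by ring
      omega
  · rintro ⟨x, y, z⟩ ht ⟨x', y', z'⟩ ht' h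
    simp only [Prod.mk.injEq] at h ⊢
    omega
  · rintro ⟨y, A, C⟩ ht
    rw [mem_coe, mem_filter, mem_Dn] at ht
    obtain ⟨⟨h1, h2, h3, h4⟩, h5⟩ := ht
    simp only at h5
    obtain ⟨h6, h7⟩ := AC hn h3 h2
    obtain ⟨z, hz⟩ : ∃ z, C = A + 2 * y + 2 * z := ⟨(C - A - 2 * y) / 2, by omega⟩
    refine ⟨(A, y, z), ?_, by simp only [hz]⟩
    rw [mem_coe, mem_B]
    refine ⟨h1, by omega, by omega, ?_⟩
    rw [← h2, hz]; ring

/-- the map on the middle part -/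
def phi (t : ℕ × ℕ × ℕ) : ℕ × ℕ × ℕ :=
  ((t.2.1 + t.2.2) / 2, t.1 - (t.2.2 - t.2.1) / 2, t.1 + (t.2.2 - t.2.1) / 2)

theorem middle {n : ℕ} (hn : n % 4 = 2) (h3 : ∀ y v : ℕ, 2 * (y * y) ≠ n + v * v) :
    ((((Dn n).filter (fun t => t.2.2 < t.2.1 + 2 * t.1)).card : ℕ) : ZMod 2) = 0 := by
  classical
  have key : ∀ y A C : ℕ, (y, A, C) ∈ (Dn n).filter (fun t => t.2.2 < t.2.1 + 2 * t.1) →
      ∃ v, C = A + 2 * v ∧ v < y ∧ 1 ≤ v ∧ v % 2 = 0 ∧ A % 2 = 1 ∧ y % 2 = 1 ∧ 1 ≤ A ∧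
        y * y + A * (A + 2 * v) = n ∧ phi (y, A, C) = (A + v, y - v, y + v) := by
    intro y A C ht
    rw [mem_filter, mem_Dn] at ht
    obtain ⟨⟨h1, h2, h3, h4⟩, h5⟩ := ht
    simp only at h5
    obtain ⟨h6, h7⟩ := AC hn h3 h2
    obtain ⟨v, hv⟩ : ∃ v, C = A + 2 * v := ⟨(C - A) / 2, by omega⟩
    subst hv
    refine ⟨v, rfl, by omega, by omega, by omega, h6, h3, h1, h2, ?_⟩
    simp only [phi, Prod.mk.injEq]
    omega
  rw [parity_invol _ phi]
  · have : ((Dn n).filter (fun t => t.2.2 < t.2.1 + 2 * t.1)).filter (fun t => phi t = t) = ∅ := by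
      apply Finset.eq_empty_of_forall_notMem
      rintro ⟨y, A, C⟩ ht
      rw [mem_filter] at ht
      obtain ⟨ht, hf⟩ := ht
      obtain ⟨v, rfl, hvy, -, -, -, -, -, hs, hphi⟩ := key y A C ht
      rw [hphi] at hf
      simp only [Prod.mk.injEq] at hf
      obtain ⟨e1, e2, e3⟩ := hf
      apply h3 y v
      rw [← hs]
      have : y = A + v := e1.symm
      subst this
      ring
    rw [this]
    simp
  · rintro ⟨y, A, C⟩ ht
    obtain ⟨v, rfl, hvy, hv1, hv2, hA, hy, hA1, hs, hphi⟩ := key y A C ht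
    rw [hphi, mem_filter, mem_Dn]
    obtain ⟨w, rfl⟩ : ∃ w, y = v + w := ⟨y - v, by omega⟩
    refine ⟨⟨by omega, ?_, by omega, by omega⟩, by simp only; omega⟩
    rw [Nat.add_sub_cancel_left, ← hs]
    ring
  · rintro ⟨y, A, C⟩ ht
    obtain ⟨v, rfl, hvy, hv1, hv2, hA, hy, hA1, hs, hphi⟩ := key y A C ht
    rw [hphi]
    simp only [phi, Prod.mk.injEq]
    omega

theorem B_eq_D {n : ℕ} (hn : n % 4 = 2) (h3 : ∀ y v : ℕ, 2 * (y * y) ≠ n + v * v) :
    (((B n).card : ℕ) : ZMod 2) = (((Dn n).card : ℕ) : ZMod 2) := by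
  have h1 := Finset.card_filter_add_card_filter_not (s := Dn n)
    (fun t => t.2.1 + 2 * t.1 < t.2.2)
  have h2 : (Dn n).filter (fun t => ¬ t.2.1 + 2 * t.1 < t.2.2)
      = (Dn n).filter (fun t => t.2.2 < t.2.1 + 2 * t.1) := by
    apply Finset.filter_congr
    rintro ⟨y, A, C⟩ ht
    rw [mem_Dn] at ht
    obtain ⟨g1, g2, g3, g4⟩ := ht
    simp only
    constructor
    · intro g5
      rcases Nat.lt_or_ge C (A + 2 * y) with g6 | g6
      · exact g6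
      · exfalso
        have g7 : C = A + 2 * y := by omega
        have g8 : (y + A) * (y + A) = n := by rw [← g2, g7]; ring
        have g9 := mod4_mul_self (y + A)
        rw [g8] at g9
        split_ifs at g9 <;> omega
    · intro g5; omega
  rw [h2] at h1
  rw [← h1, B_card hn]
  push_cast
  rw [middle hn h3, add_zero]

/-- `y² + u² + 4 v² = n` -/
def Gn (n : ℕ) : Finset (ℕ × ℕ × ℕ) :=
  (Icc 1 n ×ˢ Icc 1 n ×ˢ Icc 1 n).filter
    (fun t => t.1 * t.1 + t.2.1 * t.2.1 + 4 * t.2.2 * t.2.2 = n)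

theorem mem_Gn {n y u v : ℕ} : (y, u, v) ∈ Gn n ↔
    1 ≤ y ∧ 1 ≤ u ∧ 1 ≤ v ∧ y * y + u * u + 4 * v * v = n := by
  unfold Gn
  simp only [mem_filter, mem_product, mem_Icc]
  constructor
  · rintro ⟨⟨⟨h1, _⟩, ⟨h2, _⟩, ⟨h3, _⟩⟩, h⟩
    exact ⟨h1, h2, h3, h⟩
  · rintro ⟨h1, h2, h3, h⟩
    refine ⟨⟨⟨h1, ?_⟩, ⟨h2, ?_⟩, ⟨h3, ?_⟩⟩, h⟩ <;> nlinarith

/-- the values of `y` -/
def Yn (n : ℕ) : Finset ℕ := (Icc 1 n).filter (fun y => y % 2 = 1 ∧ y * y < n)

theorem mem_Yn {n y : ℕ} : y ∈ Yn n ↔ y % 2 = 1 ∧ y * y < n := by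
  unfold Yn
  simp only [mem_filter, mem_Icc]
  constructor
  · rintro ⟨_, h⟩; exact h
  · rintro ⟨h1, h2⟩
    refine ⟨⟨by omega, ?_⟩, h1, h2⟩
    nlinarith

theorem Dn_card (n : ℕ) : (Dn n).card = ∑ y ∈ Yn n, e (n - y * y) := by
  rw [Finset.card_eq_sum_card_fiberwise (f := fun t => t.1) (t := Yn n)]
  · apply Finset.sum_congr rfl
    intro y hy
    rw [mem_Yn] at hy
    unfold e
    apply card_nbij (fun t => (t.2.1, t.2.2))
    · rintro ⟨y', A, C⟩ ht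
      rw [mem_coe, mem_filter, mem_Dn] at ht
      obtain ⟨⟨h1, h2, h3, h4⟩, h5⟩ := ht
      simp only at h5
      subst h5
      rw [mem_coe, mem_filter, Nat.mem_divisorsAntidiagonal]
      refine ⟨⟨?_, by omega⟩, h4⟩
      simp only
      omega
    · rintro ⟨y', A, C⟩ ht ⟨y'', A', C'⟩ ht' h
      rw [mem_coe, mem_filter] at ht ht'
      have h1 := ht.2
      have h2 := ht'.2
      simp only [Prod.mk.injEq] at h h1 h2 ⊢
      omega
    · rintro ⟨A, C⟩ ht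
      rw [mem_coe, mem_filter, Nat.mem_divisorsAntidiagonal] at ht
      obtain ⟨⟨h1, h2⟩, h3⟩ := ht
      simp only at h1 h3
      refine ⟨(y, A, C), ?_, rfl⟩
      rw [mem_coe, mem_filter, mem_Dn]
      have hA : 1 ≤ A := by
        rcases Nat.eq_zero_or_pos A with h | h
        · rw [h, zero_mul] at h1; omega
        · exact h
      exact ⟨⟨hA, by omega, hy.1, h3⟩, rfl⟩
  · rintro ⟨y, A, C⟩ ht
    rw [mem_coe, mem_Dn] at ht
    rw [mem_coe, mem_Yn]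
    refine ⟨ht.2.2.1, ?_⟩
    have : 0 < A * C := Nat.mul_pos ht.1 (by omega)
    simp only
    omega

theorem Gn_card {n : ℕ} (hn : n % 4 = 2) : (Gn n).card = ∑ y ∈ Yn n, (N4 (n - y * y)).card := by
  rw [Finset.card_eq_sum_card_fiberwise (f := fun t => t.1) (t := Yn n)]
  · apply Finset.sum_congr rfl
    intro y hy
    rw [mem_Yn] at hy
    apply card_nbij (fun t => (t.2.1, t.2.2))
    · rintro ⟨y', u, v⟩ ht
      rw [mem_coe, mem_filter, mem_Gn] at ht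
      obtain ⟨⟨h1, h2, h3, h4⟩, h5⟩ := ht
      simp only at h5
      subst h5
      rw [mem_coe, mem_N4]
      exact ⟨h2, h3, by simp only; omega⟩
    · rintro ⟨y', A, C⟩ ht ⟨y'', A', C'⟩ ht' h
      rw [mem_coe, mem_filter] at ht ht'
      have h1 := ht.2
      have h2 := ht'.2
      simp only [Prod.mk.injEq] at h h1 h2 ⊢
      omega
    · rintro ⟨u, v⟩ ht
      rw [mem_coe, mem_N4] at ht
      refine ⟨(y, u, v), ?_, rfl⟩
      rw [mem_coe, mem_filter, mem_Gn]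
      exact ⟨⟨by omega, ht.1, ht.2.1, by omega⟩, rfl⟩
  · rintro ⟨y, u, v⟩ ht
    rw [mem_coe, mem_Gn] at ht
    obtain ⟨h1, h2, h3, h4⟩ := ht
    rw [mem_coe, mem_Yn]
    have g1 := mod4_mul_self y
    have g2 := mod4_mul_self u
    have g3 : 4 * v * v = 4 * (v * v) := by ring
    simp only
    constructor
    · by_contra hy
      rw [if_neg hy] at g1
      split_ifs at g2 <;> omega
    · have : 0 < u * u := Nat.mul_pos h2 h2
      omega

theorem Gn_even {n : ℕ} (h2 : ∀ y v : ℕ, 1 ≤ y → 1 ≤ v → 2 * (y * y) + 4 * (v * v) ≠ n) :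
    (((Gn n).card : ℕ) : ZMod 2) = 0 := by
  classical
  rw [parity_invol (Gn n) (fun t => (t.2.1, t.1, t.2.2))]
  · have : (Gn n).filter (fun t => (t.2.1, t.1, t.2.2) = t) = ∅ := by
      apply Finset.eq_empty_of_forall_notMem
      rintro ⟨y, u, v⟩ ht
      rw [mem_filter, mem_Gn] at ht
      obtain ⟨⟨g1, g2, g3, g4⟩, g5⟩ := ht
      simp only [Prod.mk.injEq] at g5
      obtain ⟨rfl, -, -⟩ := g5
      apply h2 u v g1 g3
      rw [← g4]; ring
    rw [this]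
    simp
  · rintro ⟨y, u, v⟩ ht
    rw [mem_Gn] at ht
    simp only
    rw [mem_Gn]
    refine ⟨ht.2.1, ht.1, ht.2.2.1, ?_⟩
    rw [← ht.2.2.2]; ring
  · rintro ⟨y, u, v⟩ _
    rfl

theorem nu_three_even {n : ℕ} (hn : n % 4 = 2)
    (h1 : ∀ x y : ℕ, x * x + y * y ≠ n)
    (h3 : ∀ y v : ℕ, 2 * (y * y) ≠ n + v * v)
    (h2 : ∀ y v : ℕ, 1 ≤ y → 1 ≤ v → 2 * (y * y) + 4 * (v * v) ≠ n) :
    2 ∣ nu 3 n := by
  rw [← cast_eq_zero_iff_even, nu_three_parity, B_eq_D hn h3, Dn_card]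
  rw [← Gn_even h2, Gn_card hn]
  push_cast
  apply Finset.sum_congr rfl
  intro y hy
  rw [mem_Yn] at hy
  apply e_odd
  · have := odd_mod4 hy.1
    omega
  · apply s_eq_zero
    intro x _ hx
    apply h1 x y
    omega

/-- For `k` prime to `6` with `3 k` not of the form `y² + 2 v²`, the number of partitions of `6 k`
with exactly three part sizes is even. -/
theorem nu_three_six {k : ℕ} (hk2 : k % 2 = 1) (hk3 : k % 3 ≠ 0)
    (hk : ∀ y v : ℕ, 1 ≤ y → 1 ≤ v → y * y + 2 * (v * v) ≠ 3 * k) : 2 ∣ nu 3 (6 * k) := by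
  have sq3 : ∀ x : ℕ, x * x % 3 = 0 → x % 3 = 0 ∧ x * x % 9 = 0 := by
    intro x hx
    have : x % 3 = 0 := by
      rw [Nat.mul_mod] at hx
      have h : x % 3 < 3 := Nat.mod_lt _ (by norm_num)
      interval_cases h' : x % 3 <;> simp at hx ⊢
    refine ⟨this, ?_⟩
    obtain ⟨w, rfl⟩ : ∃ w, x = 3 * w := ⟨x / 3, by omega⟩
    have : 3 * w * (3 * w) = 9 * (w * w) := by ring
    omega
  have sq3' : ∀ x : ℕ, x * x % 3 = 0 ∨ x * x % 3 = 1 := by
    intro x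
    rw [Nat.mul_mod]
    have h : x % 3 < 3 := Nat.mod_lt _ (by norm_num)
    interval_cases h' : x % 3 <;> simp
  apply nu_three_even
  · omega
  · intro x y h
    have a1 := sq3' x
    have a2 := sq3' y
    have a3 : x * x % 3 = 0 ∧ y * y % 3 = 0 := by omega
    have a4 := (sq3 x a3.1).2
    have a5 := (sq3 y a3.2).2
    omega
  · intro y v h
    have a1 := sq3' y
    have a2 := sq3' v
    have a3 : y * y % 3 = 0 ∧ v * v % 3 = 0 := by omega
    have a4 := (sq3 y a3.1).2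
    have a5 := (sq3 v a3.2).2
    omega
  · intro y v hy hv h
    apply hk y v hy hv
    omega

end Pool.Agent.H42NU
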